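import Mathlib

namespace Pool.Agent.Results.MP_7100ec_nt.NotMono

/-- the Gauss map -/
noncomputable def g (y : ℝ) : ℝ := Int.fract (1 / y)

/-- `y = [a_1, a_2, ...]` has an `n`-th partial quotient and it equals `a` -/
def PQ (y : ℝ) (n : ℕ) (a : ℤ) : Prop := g^[n - 1] y ≠ 0 ∧ a = ⌊1 / g^[n - 1] y⌋

theorem result : ∃ x : ℝ, 0 < x ∧ x ≤ 1 ∧ ∃ c₁ b₁ c₂ b₂ : ℤ,
    PQ x 1 (c₁ - 1) ∧ PQ (x - 1 / c₁) 1 b₁ ∧ PQ (x - 1 / b₁) 2 (c₂ - 1) ∧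
    PQ (x - 1 / (c₁ + 1 / c₂)) 2 b₂ ∧ b₂ < b₁ := by
  have h1 : g (75 / 377 - 1 / (30 : ℤ)) = 72 / 1873 := by
    unfold g
    rw [Int.fract_eq_iff]
    refine ⟨by norm_num, by norm_num, 6, by norm_num⟩
  have h2 : g (75 / 377 - 1 / ((6 : ℤ) + 1 / (27 : ℤ))) = 71 / 2046 := by
    unfold g
    rw [Int.fract_eq_iff]
    refine ⟨by norm_num, by norm_num, 30, by norm_num⟩
  refine ⟨75 / 377, by norm_num, by norm_num, 6, 30, 27, 28, ⟨?_, ?_⟩, ⟨?_, ?_⟩, ⟨?_, ?_⟩,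
    ⟨?_, ?_⟩, by norm_num⟩
  · norm_num
  · symm; rw [Int.floor_eq_iff]; norm_num
  · norm_num
  · symm; rw [Int.floor_eq_iff]; norm_num
  · show g _ ≠ 0
    rw [h1]; norm_num
  · show _ = ⌊1 / g _⌋
    rw [h1]; symm; rw [Int.floor_eq_iff]; norm_num
  · show g _ ≠ 0
    rw [h2]; norm_num
  · show _ = ⌊1 / g _⌋
    rw [h2]; symm; rw [Int.floor_eq_iff]; norm_num

end Pool.Agent.Results.MP_7100ec_nt.NotMono
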